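import Pool.Agent.Helper64.PQ.Goals

set_option autoImplicit false

/-!
Project PQ (helper64, MP_2b9d24_gt), packet A2: exact distances from coarse projections.
-/

namespace Pool.Agent.Helper94.PQ

open Pool.Agent.Helper64.PQ Relation

section
variable {X : Type} {t : ℕ} {d : X → X → X → ℕ}

/-- One step of the direction relation seen from `x`. -/
def St (t : ℕ) (d : X → X → X → ℕ) (x a b : X) : Prop := a ≠ x ∧ b ≠ x ∧ Rel t d x a b

/-- The direction relation seen from `x`. -/
def EE (t : ℕ) (d : X → X → X → ℕ) (x y z : X) : Prop := ReflTransGen (St t d x) y z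

/-- The values of `d` on the classes. -/
def SS (t : ℕ) (d : X → X → X → ℕ) (x y z : X) : Set ℕ :=
  {n | ∃ y' z', EE t d x y y' ∧ EE t d x z z' ∧ n = d x y' z'}

theorem St_symm {x a b : X} (h : St t d x a b) : St t d x b a :=
  ⟨h.2.1, h.1, h.2.2.1.symm, h.2.2.2.symm⟩

theorem EE_symm {x y z : X} (h : EE t d x y z) : EE t d x z y := by
  induction h with
  | refl => exact ReflTransGen.refl
  | tail _ h2 ih => exact ReflTransGen.head (St_symm h2) ih

theorem EE_trans {x y z w : X} (h : EE t d x y z) (h' : EE t d x z w) : EE t d x y w :=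
  ReflTransGen.trans h h'

theorem EE_ne {x y z : X} (h : EE t d x y z) (hy : y ≠ x) : z ≠ x := by
  induction h with
  | refl => exact hy
  | tail _ h2 _ => exact h2.2.1

theorem EE_chain {x y z : X} (h : EE t d x y z) (hy : y ≠ x) :
    ∃ (n : ℕ) (a : ℕ → X), a 0 = y ∧ a n = z ∧ (∀ i ≤ n, a i ≠ x) ∧
      ∀ i < n, Rel t d x (a i) (a (i + 1)) := by
  induction h with
  | refl => exact ⟨0, fun _ => y, rfl, rfl, fun _ _ => hy, fun i hi => absurd hi (by omega)⟩
  | @tail b c _ h2 ih =>
    obtain ⟨n, a, h0, hn, h3, h4⟩ := ih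
    refine ⟨n + 1, fun i => if i ≤ n then a i else c, by simp [h0], by simp, ?_, ?_⟩
    · intro i hi
      by_cases hin : i ≤ n
      · simpa [hin] using h3 i hin
      · simpa [hin] using h2.2.1
    · intro i hi
      by_cases hin : i + 1 ≤ n
      · have h5 : i ≤ n := by omega
        have := h4 i (by omega)
        simpa [hin, h5] using this
      · have h5 : i = n := by omega
        subst h5
        have := h2.2.2
        rw [← hn] at this
        simpa using this

theorem EE_near (hA : GoalA1) (hp : Proj t d) {x y z : X} (h : EE t d x y z) (hy : y ≠ x) :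
    d x y z ≤ 2 * t := by
  obtain ⟨n, a, h0, hn, h3, h4⟩ := EE_chain h hy
  obtain ⟨k, hk, hg⟩ := hA X t d hp x n a h3 h4
  have hW : a k ≠ x := h3 k hk
  have key : ∀ i ≤ n, d x (a k) (a i) ≤ t := by
    intro i hi
    rcases hg i hi with h5 | h5
    · rw [h5]
      exact hp.refl _ _ hW
    · by_cases h6 : a i = a k
      · rw [h6]
        exact hp.refl _ _ hW
      · have := hp.pos
        exact hp.beh (a k) x (a i) hW (h3 i hi).symm (Ne.symm h6) (by omega)
  have k0 := key 0 (by omega)
  have kn := key n le_rfl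
  rw [h0] at k0
  rw [hn] at kn
  have hz : z ≠ x := EE_ne h hy
  have h7 := hp.tri x y (a k) z hy hW hz
  have h8 := hp.symm x y (a k) hy hW
  omega

theorem SS_le (hA : GoalA1) (hp : Proj t d) {x y z : X} (hy : y ≠ x) (hz : z ≠ x) {n : ℕ}
    (hn : n ∈ SS t d x y z) : n ≤ d x y z + 4 * t := by
  obtain ⟨y', z', h1, h2, rfl⟩ := hn
  have hy' := EE_ne h1 hy
  have hz' := EE_ne h2 hz
  have h3 := hp.tri x y' y z' hy' hy hz'
  have h4 := hp.tri x y z z' hy hz hz'
  have h5 := EE_near hA hp (EE_symm h1) hy'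
  have h6 := EE_near hA hp h2 hz
  omega

theorem SS_bdd (hA : GoalA1) (hp : Proj t d) {x y z : X} (hy : y ≠ x) (hz : z ≠ x) :
    BddAbove (SS t d x y z) := ⟨_, fun _ hn => SS_le hA hp hy hz hn⟩

theorem SS_mem (x y z : X) : d x y z ∈ SS t d x y z :=
  ⟨y, z, ReflTransGen.refl, ReflTransGen.refl, rfl⟩

/-- The exact distance. -/
noncomputable def DD (t : ℕ) (d : X → X → X → ℕ) (x y z : X) : ℕ := sSup (SS t d x y z)

theorem DD_mem (hA : GoalA1) (hp : Proj t d) {x y z : X} (hy : y ≠ x) (hz : z ≠ x) :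
    DD t d x y z ∈ SS t d x y z := Nat.sSup_mem ⟨_, SS_mem x y z⟩ (SS_bdd hA hp hy hz)

theorem le_DD (hA : GoalA1) (hp : Proj t d) {x y z : X} (hy : y ≠ x) (hz : z ≠ x) {n : ℕ}
    (hn : n ∈ SS t d x y z) : n ≤ DD t d x y z := le_csSup (SS_bdd hA hp hy hz) hn

theorem SS_symm_sub (hp : Proj t d) {x y z : X} (hy : y ≠ x) (hz : z ≠ x) :
    SS t d x y z ⊆ SS t d x z y := by
  rintro n ⟨y', z', h1, h2, rfl⟩
  exact ⟨z', y', h2, h1, hp.symm x y' z' (EE_ne h1 hy) (EE_ne h2 hz)⟩

theorem DD_le (hA : GoalA1) (hp : Proj t d) {x y z : X} (hy : y ≠ x) (hz : z ≠ x) :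
    DD t d x y z ≤ d x y z + 4 * t := SS_le hA hp hy hz (DD_mem hA hp hy hz)

/-- A permutation preserving `d` preserves the steps. -/
theorem St_map {g : Equiv.Perm X} (hg : Pres d g) {x a b : X} (h : St t d x a b) :
    St t d (g x) (g a) (g b) := by
  obtain ⟨h1, h2, h3, h4⟩ := h
  refine ⟨fun h => h1 (g.injective h), fun h => h2 (g.injective h),
    fun h => h3 (g.injective h), ?_⟩
  rw [hg a x b h1.symm h3.symm, hg b x a h2.symm h3]
  exact h4

theorem EE_map {g : Equiv.Perm X} (hg : Pres d g) {x y z : X} (h : EE t d x y z) :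
    EE t d (g x) (g y) (g z) := by
  induction h with
  | refl => exact ReflTransGen.refl
  | tail _ h2 ih => exact ReflTransGen.tail ih (St_map hg h2)

theorem Pres_symm {g : Equiv.Perm X} (hg : Pres d g) : Pres d g.symm := by
  intro x y z hy hz
  have := hg (g.symm x) (g.symm y) (g.symm z) (fun h => hy (g.symm.injective h))
    (fun h => hz (g.symm.injective h))
  simp only [Equiv.apply_symm_apply] at this
  exact this.symm

theorem EE_map_iff {g : Equiv.Perm X} (hg : Pres d g) {x y z : X} :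
    EE t d (g x) (g y) (g z) ↔ EE t d x y z := by
  refine ⟨fun h => ?_, EE_map hg⟩
  have := EE_map (Pres_symm hg) h
  simpa using this

theorem SS_map_sub {g : Equiv.Perm X} (hg : Pres d g) {x y z : X} (hy : y ≠ x) (hz : z ≠ x) :
    SS t d x y z ⊆ SS t d (g x) (g y) (g z) := by
  rintro n ⟨y', z', h1, h2, rfl⟩
  exact ⟨g y', g z', EE_map hg h1, EE_map hg h2, (hg x y' z' (EE_ne h1 hy) (EE_ne h2 hz)).symm⟩

end

/-- Packet A2. -/
theorem goalA2 (h : GoalA1) : GoalA2 := by
  intro X t d hp
  refine ⟨EE t d, DD t d, ?_⟩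
  refine
    { erefl := fun _ _ => ReflTransGen.refl
      esymm := fun _ _ _ h => EE_symm h
      etrans := fun _ _ _ _ h h' => EE_trans h h'
      dsymm := ?_
      dtri := ?_
      dcongr := ?_
      near := ?_
      strong := ?_
      le := ?_
      inv := ?_ }
  · intro x y z hy hz
    have : SS t d x y z = SS t d x z y :=
      Set.Subset.antisymm (SS_symm_sub hp hy hz) (SS_symm_sub hp hz hy)
    unfold DD
    rw [this]
  · intro x y z w hy hz hw
    obtain ⟨y', w', h1, h2, h3⟩ := DD_mem h hp hy hw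
    have hy' := EE_ne h1 hy
    have hw' := EE_ne h2 hw
    have h4 : d x y' z ≤ DD t d x y z := le_DD h hp hy hz ⟨y', z, h1, ReflTransGen.refl, rfl⟩
    have h5 : d x z w' ≤ DD t d x z w := le_DD h hp hz hw ⟨z, w', ReflTransGen.refl, h2, rfl⟩
    have h6 := hp.tri x y' z w' hy' hz hw'
    omega
  · intro x y z w hy hz hw hE
    have : SS t d x y w = SS t d x z w := by
      refine Set.Subset.antisymm ?_ ?_
      · rintro n ⟨y', w', h1, h2, rfl⟩
        exact ⟨y', w', EE_trans (EE_symm hE) h1, h2, rfl⟩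
      · rintro n ⟨y', w', h1, h2, rfl⟩
        exact ⟨y', w', EE_trans hE h1, h2, rfl⟩
    unfold DD
    rw [this]
  · intro x y z hy hz hE
    obtain ⟨y', z', h1, h2, h3⟩ := DD_mem h hp hy hz
    rw [h3]
    exact EE_near h hp (EE_trans (EE_trans (EE_symm h1) hE) h2) (EE_ne h1 hy)
  · intro x y z hxy hyz hxz h8
    have h9 := DD_le h hp (x := x) (y := y) (z := z) hxy.symm hxz.symm
    exact ReflTransGen.single ⟨hxy, hyz.symm, hxz, Or.inl (by omega)⟩
  · intro x y z hy hz
    exact ⟨le_DD h hp hy hz (SS_mem x y z), DD_le h hp hy hz⟩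
  · intro g hg x y z hy hz
    refine ⟨EE_map_iff hg, ?_⟩
    have : SS t d (g x) (g y) (g z) = SS t d x y z := by
      refine Set.Subset.antisymm ?_ (SS_map_sub hg hy hz)
      have := SS_map_sub (t := t) (Pres_symm hg) (x := g x) (y := g y) (z := g z)
        (fun h => hy (g.injective h)) (fun h => hz (g.injective h))
      simpa using this
    unfold DD
    rw [this]

end Pool.Agent.Helper94.PQ
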